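import Mathlib

namespace Pool.Agent.H.MP_3d3a24_gt

open Metric Bornology
open scoped RealInnerProductSpace

section abstract
variable {E : Type} [NormedAddCommGroup E] [InnerProductSpace ℝ E]

/-- coefficient of the reflection -/
noncomputable def kap (u : E) (v : E × ℝ) : ℝ := (v.2 - 4 / 5 * ⟪u, v.1⟫) * (25 / 9)

/-- the lifted projective point reflection with centre `(4/5) u` -/
noncomputable def R (u : E) (v : E × ℝ) : E × ℝ :=
  ((8 / 5 * kap u v) • u - v.1, 2 * kap u v - v.2)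

theorem R_lin (u : E) (a b : ℝ) (v w : E × ℝ) : R u (a • v + b • w) = a • R u v + b • R u w := by
  ext
  · simp only [R, kap, Prod.fst_add, Prod.snd_add, Prod.smul_fst, Prod.smul_snd, inner_add_right,
      inner_smul_right, smul_eq_mul]
    module
  · simp only [R, kap, Prod.fst_add, Prod.snd_add, Prod.smul_fst, Prod.smul_snd, inner_add_right,
      inner_smul_right, smul_eq_mul]
    ring

theorem R_cont (u : E) : Continuous (R u) := by
  unfold R kap; fun_prop

theorem R_in {u : E} (hu : ‖u‖ = 1) (v : E × ℝ) : ⟪u, (R u v).1⟫ = 8 / 5 * kap u v - ⟪u, v.1⟫ := by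
  simp only [R, inner_sub_right, inner_smul_right, real_inner_self_eq_norm_sq, hu]
  ring

theorem kap_R {u : E} (hu : ‖u‖ = 1) (v : E × ℝ) : kap u (R u v) = kap u v := by
  have := R_in hu v
  rw [kap, this]
  simp only [R, kap]
  ring

theorem R_R {u : E} (hu : ‖u‖ = 1) (v : E × ℝ) : R u (R u v) = v := by
  have h := kap_R hu v
  ext
  · rw [R, h]; simp [R]
  · rw [R, h]; simp [R]

theorem R_snd {u : E} (hu : ‖u‖ = 1) {v : E × ℝ} (hv : ‖v.1‖ ≤ v.2) : v.2 / 9 ≤ (R u v).2 := by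
  have := real_inner_le_norm u v.1
  rw [hu] at this
  simp only [R, kap]
  linarith

theorem R_C {u : E} (hu : ‖u‖ = 1) {v : E × ℝ} (hv : ‖v.1‖ ≤ v.2) : ‖(R u v).1‖ ≤ (R u v).2 := by
  have h0 : 0 ≤ (R u v).2 := le_trans (by linarith [norm_nonneg v.1]) (R_snd hu hv)
  refine le_of_pow_le_pow_left₀ two_ne_zero h0 ?_
  have h1 : ‖v.1‖ ^ 2 ≤ v.2 ^ 2 := pow_le_pow_left₀ (norm_nonneg _) hv 2
  simp only [R]
  rw [norm_sub_sq_real, norm_smul, hu, inner_smul_left, mul_one, Real.norm_eq_abs, sq_abs]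
  simp only [conj_trivial, kap]
  nlinarith

variable {ι : Type} (u : ι → E) (w : E)

/-- action of a word -/
noncomputable def act (l : List ι) (v : E × ℝ) : E × ℝ := l.foldr (fun j v => R (u j) v) v

/-- the invariant cone -/
def Good (v : E × ℝ) : Prop :=
  ‖v.1‖ ≤ v.2 ∧ ∀ l : List ι, ⟪w, (act u l v).1⟫ ≤ 7 / 5 * (act u l v).2

theorem act_lin (l : List ι) (a b : ℝ) (v v' : E × ℝ) :
    act u l (a • v + b • v') = a • act u l v + b • act u l v' := by
  induction l with
  | nil => rfl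
  | cons j l ih =>
    show R (u j) (act u l _) = _
    rw [ih, R_lin]; rfl

theorem act_cont (l : List ι) : Continuous (act u l) := by
  induction l with
  | nil => exact continuous_id
  | cons j l ih => exact (R_cont (u j)).comp ih

theorem good_comb {v v' : E × ℝ} (h : Good u w v) (h' : Good u w v') {a b : ℝ} (ha : 0 ≤ a)
    (hb : 0 ≤ b) : Good u w (a • v + b • v') := by
  refine ⟨?_, fun l => ?_⟩
  · simp only [Prod.fst_add, Prod.snd_add, Prod.smul_fst, Prod.smul_snd, smul_eq_mul]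
    refine (norm_add_le _ _).trans ?_
    rw [norm_smul, norm_smul, Real.norm_of_nonneg ha, Real.norm_of_nonneg hb]
    exact add_le_add (mul_le_mul_of_nonneg_left h.1 ha) (mul_le_mul_of_nonneg_left h'.1 hb)
  · rw [act_lin]
    simp only [Prod.fst_add, Prod.snd_add, Prod.smul_fst, Prod.smul_snd, smul_eq_mul,
      inner_add_right, inner_smul_right]
    nlinarith [mul_le_mul_of_nonneg_left (h.2 l) ha, mul_le_mul_of_nonneg_left (h'.2 l) hb]

theorem good_R (hu : ∀ j, ‖u j‖ = 1) {v : E × ℝ} (h : Good u w v) (j : ι) :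
    Good u w (R (u j) v) := by
  refine ⟨R_C (hu j) h.1, fun l => ?_⟩
  have := h.2 (l ++ [j])
  rwa [act, List.foldr_append] at this

/-- reduced orbits -/
inductive Orb (v : E × ℝ) : Option ι → E × ℝ → Prop
  | base : Orb v none v
  | step (i : ι) (j : Option ι) (x : E × ℝ) : Orb v j x → j ≠ some i → Orb v (some i) (R (u i) x)

theorem orb_next (hu : ∀ j, ‖u j‖ = 1) {v x : E × ℝ} {j : Option ι} (h : Orb u v j x) (i : ι) :
    ∃ j', Orb u v j' (R (u i) x) := by
  by_cases hj : j = some i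
  · cases h with
    | base => simp at hj
    | step i' j' x' h' hne =>
      obtain rfl : i' = i := by simpa using hj
      rw [R_R (hu _)]
      exact ⟨j', h'⟩
  · exact ⟨_, Orb.step i j x h hj⟩

theorem good_of (hu : ∀ j, ‖u j‖ = 1) (huu : ∀ i j, i ≠ j → ⟪u i, u j⟫ ≤ 0)
    (hw : ‖w‖ ^ 2 = 2) (huw : ∀ j, ⟪w, u j⟫ ≤ 1) {v : E × ℝ} (h1 : ‖v.1‖ ≤ v.2)
    (h2 : ⟪w, v.1⟫ ≤ 7 / 5 * v.2) (h3 : ∀ j, ⟪u j, v.1⟫ ≤ 4 / 5 * v.2) : Good u w v := by
  have A : ∀ j x, Orb u v j x → ‖x.1‖ ≤ x.2 ∧ (j = none → x = v) ∧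
      ∀ i, j = some i → 4 / 5 * x.2 ≤ ⟪u i, x.1⟫ := by
    intro j x h
    induction h with
    | base => exact ⟨h1, fun _ => rfl, fun i hi => by simp at hi⟩
    | step i j x h hne ih =>
      refine ⟨R_C (hu i) ih.1, fun h => by simp at h, fun i' hi' => ?_⟩
      obtain rfl : i = i' := by simpa using hi'
      have key : ⟪u i, x.1⟫ ≤ 4 / 5 * x.2 := by
        cases j with
        | none => rw [ih.2.1 rfl]; exact h3 i
        | some k =>
          have a1 := ih.2.2 k rfl
          have a2 := huu k i (fun e => hne (by rw [e]))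
          have a3 : ‖u k + u i‖ ≤ 3 / 2 := by
            refine le_of_pow_le_pow_left₀ two_ne_zero (by norm_num) ?_
            rw [norm_add_sq_real, hu, hu]; linarith
          have a4 := real_inner_le_norm (u k + u i) x.1
          rw [inner_add_left] at a4
          have a5 := mul_le_mul a3 ih.1 (norm_nonneg _) (by norm_num)
          linarith [norm_nonneg x.1, ih.1]
      rw [R_in (hu i)]
      simp only [R]
      linarith
  have B : ∀ l : List ι, ∃ j, Orb u v j (act u l v) := by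
    intro l
    induction l with
    | nil => exact ⟨none, Orb.base⟩
    | cons i l ih =>
      obtain ⟨j, hj⟩ := ih
      exact orb_next u hu hj i
  refine ⟨h1, fun l => ?_⟩
  obtain ⟨j, hj⟩ := B l
  obtain ⟨a1, a2, a3⟩ := A _ _ hj
  generalize act u l v = x at *
  cases j with
  | none => rw [a2 rfl]; exact h2
  | some k =>
    have b1 := a3 k rfl
    have b2 : ‖w + (1 / 3 : ℝ) • u k‖ ≤ 5 / 3 := by
      refine le_of_pow_le_pow_left₀ two_ne_zero (by norm_num) ?_
      rw [norm_add_sq_real, hw, norm_smul, hu, inner_smul_right, Real.norm_of_nonneg (by norm_num)]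
      linarith [huw k]
    have b3 := real_inner_le_norm (w + (1 / 3 : ℝ) • u k) x.1
    rw [inner_add_left, inner_smul_left] at b3
    simp only [conj_trivial] at b3
    have b4 := mul_le_mul b2 a1 (norm_nonneg _) (by norm_num)
    linarith

/-- the body -/
def K : Set E := {x | Good u w (x, 1)}

theorem K_sub : K u w ⊆ closedBall 0 1 := fun x hx => by
  rw [mem_closedBall_zero_iff]; exact hx.1

theorem K_closed : IsClosed (K u w) := by
  have : K u w = {x | ‖x‖ ≤ 1} ∩ ⋂ l : List ι,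
      {x | ⟪w, (act u l (x, 1)).1⟫ ≤ 7 / 5 * (act u l (x, 1)).2} := by
    ext x; simp [K, Good]
  rw [this]
  refine (isClosed_le continuous_norm continuous_const).inter (isClosed_iInter fun l => ?_)
  have := act_cont u l
  exact isClosed_le (by fun_prop) (by fun_prop)

theorem K_convex : Convex ℝ (K u w) := by
  intro x hx y hy a b ha hb hab
  have := good_comb u w hx hy ha hb
  have e : a • ((x, 1) : E × ℝ) + b • ((y, 1) : E × ℝ) = (a • x + b • y, 1) := by
    ext <;> simp [hab]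
  rwa [e] at this

theorem sym_sec (hu : ∀ j, ‖u j‖ = 1) (j : ι) (p : E) (hp : ⟪u j, p⟫ = 5 / 4) (z : E)
    (hz : ∃ x ∈ K u w, ∃ t : ℝ, 0 ≤ t ∧ z = p + t • (x - p)) (hz' : ⟪u j, z⟫ = 4 / 5) :
    ‖z‖ ≤ ‖p‖ + 2 * (1 + ‖p‖) ∧
    (∃ x ∈ K u w, ∃ t : ℝ, 0 ≤ t ∧ (2 : ℝ) • ((4 / 5 : ℝ) • u j) - z = p + t • (x - p)) ∧
      ⟪u j, (2 : ℝ) • ((4 / 5 : ℝ) • u j) - z⟫ = 4 / 5 := by
  obtain ⟨y, hy, t, ht, rfl⟩ := hz
  rw [inner_add_right, inner_smul_right, inner_sub_right, hp] at hz'
  have hy1 : ‖y‖ ≤ 1 := hy.1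
  have a1 := real_inner_le_norm (u j) y
  rw [hu] at a1
  refine ⟨?_, ?_, ?_⟩
  · have a2 : t ≤ 2 := by nlinarith
    refine (norm_add_le _ _).trans ?_
    rw [norm_smul, Real.norm_of_nonneg ht]
    have a3 : ‖y - p‖ ≤ 1 + ‖p‖ := (norm_sub_le _ _).trans (by linarith)
    nlinarith [norm_nonneg (y - p)]
  · have g := good_R u w hu hy j
    have hs : 0 < (R (u j) (y, 1)).2 := lt_of_lt_of_le (by norm_num) (R_snd (hu j) hy.1)
    have g2 := good_comb u w g g (inv_pos.2 hs).le le_rfl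
    rw [zero_smul, add_zero] at g2
    have hk : t * kap (u j) (y, 1) = 1 := by
      simp only [kap]; linarith
    refine ⟨(R (u j) (y, 1)).2⁻¹ • (R (u j) (y, 1)).1, ?_, t * (R (u j) (y, 1)).2,
      mul_nonneg ht hs.le, ?_⟩
    · have e : (R (u j) (y, 1)).2⁻¹ • R (u j) (y, 1) =
          ((R (u j) (y, 1)).2⁻¹ • (R (u j) (y, 1)).1, 1) := by
        ext
        · rfl
        · simp [inv_mul_cancel₀ hs.ne']
      rwa [e] at g2
    · rw [smul_sub (t * _), smul_smul (t * _), mul_assoc, mul_inv_cancel₀ hs.ne', mul_one]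
      simp only [R]
      have e1 : t • ((8 / 5 * kap (u j) (y, 1)) • u j - y) = (8 / 5 : ℝ) • u j - t • y := by
        rw [smul_sub, smul_smul, mul_left_comm, hk, mul_one]
      have e2 : t * (2 * kap (u j) (y, 1) - 1) = 2 - t := by linarith
      rw [e1, e2]
      module
  · rw [inner_sub_right, inner_smul_right, inner_smul_right, real_inner_self_eq_norm_sq, hu,
      inner_add_right, inner_smul_right, inner_sub_right, hp]
    linarith

theorem not_ell (hw : ‖w‖ ^ 2 = 2) (P Q : E) (hP : P ∈ K u w) (hQ : Q ∈ K u w) (hne : P ≠ Q)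
    (h1 : ⟪w, P⟫ = 7 / 5) (h2 : ⟪w, Q⟫ = 7 / 5) :
    ¬ ∃ (c : E) (T : E ≃ₗ[ℝ] E), K u w = (fun x => c + T x) '' closedBall 0 1 := by
  rintro ⟨c, T, hT⟩
  have bd : ∀ x ∈ K u w, ⟪w, x⟫ ≤ 7 / 5 := fun x hx => by simpa [act] using hx.2 []
  rw [hT] at hP hQ
  obtain ⟨p, hp, rfl⟩ := hP
  obtain ⟨q, hq, rfl⟩ := hQ
  rw [mem_closedBall_zero_iff] at hp hq
  have hpq : p ≠ q := fun e => hne (by rw [e])
  have hm : ‖(1 / 2 : ℝ) • p + (1 / 2 : ℝ) • q‖ < 1 :=
    norm_combo_lt_of_ne hp hq hpq (by norm_num) (by norm_num) (by norm_num)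
  set m := (1 / 2 : ℝ) • p + (1 / 2 : ℝ) • q with hmd
  have hw0 : w ≠ 0 := by rintro rfl; simp at hw
  have hn : 0 < ‖T.symm w‖ := norm_pos_iff.2 (by simpa using hw0)
  have a1 : c + T (m + ((1 - ‖m‖) / ‖T.symm w‖) • T.symm w) ∈ K u w := by
    rw [hT]
    refine ⟨_, ?_, rfl⟩
    rw [mem_closedBall_zero_iff]
    refine (norm_add_le _ _).trans ?_
    rw [norm_smul, Real.norm_of_nonneg (div_nonneg (by linarith) hn.le), div_mul_cancel₀ _ hn.ne']
    linarith
  have a2 := bd _ a1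
  simp only [inner_add_right] at h1 h2
  rw [map_add, map_smul, LinearEquiv.apply_symm_apply, inner_add_right, inner_add_right,
    inner_smul_right, real_inner_self_eq_norm_sq, hw] at a2
  have a3 : ⟪w, T m⟫ = (⟪w, T p⟫ + ⟪w, T q⟫) / 2 := by
    rw [hmd, map_add, map_smul, map_smul, inner_add_right, inner_smul_right, inner_smul_right]; ring
  have a4 : 0 < (1 - ‖m‖) / ‖T.symm w‖ := div_pos (by linarith) hn
  linarith

end abstract

/-- signed coordinate vectors -/
noncomputable def uu (n : ℕ) (j : Fin n × Bool) : EuclideanSpace ℝ (Fin n) :=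
  EuclideanSpace.single j.1 (bif j.2 then 1 else -1)

theorem uu_norm (n : ℕ) (j : Fin n × Bool) : ‖uu n j‖ = 1 := by
  obtain ⟨i, b⟩ := j
  cases b <;> simp [uu]

theorem uu_inner (n : ℕ) (j : Fin n × Bool) (x : EuclideanSpace ℝ (Fin n)) :
    ⟪uu n j, x⟫ = (bif j.2 then 1 else -1) * x j.1 := by
  simp [uu, EuclideanSpace.inner_single_left]

theorem uu_le (n : ℕ) (j : Fin n × Bool) (x : EuclideanSpace ℝ (Fin n)) :
    ⟪uu n j, x⟫ ≤ |x j.1| := by
  rw [uu_inner]
  obtain ⟨i, b⟩ := j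
  cases b
  · simpa using neg_le_abs _
  · simpa using le_abs_self _

theorem uu_uu (n : ℕ) (i j : Fin n × Bool) (h : i ≠ j) : ⟪uu n i, uu n j⟫ ≤ 0 := by
  rw [uu_inner]
  obtain ⟨i, b⟩ := i
  obtain ⟨j, c⟩ := j
  by_cases hij : i = j
  · subst hij
    cases b <;> cases c <;> simp [uu] at h ⊢
  · simp [uu, hij]

/-- the cube -/
def L (n : ℕ) : Set (EuclideanSpace ℝ (Fin n)) := {x | ∀ j, ⟪uu n j, x⟫ ≤ 5 / 4}

theorem L_closed (n : ℕ) : IsClosed (L n) := by
  have : L n = ⋂ j, {x | ⟪uu n j, x⟫ ≤ 5 / 4} := by ext x; simp [L]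
  rw [this]
  exact isClosed_iInter fun j => isClosed_le (by fun_prop) continuous_const

theorem L_convex (n : ℕ) : Convex ℝ (L n) := by
  intro x hx y hy a b ha hb hab j
  rw [inner_add_right, inner_smul_right, inner_smul_right]
  nlinarith [hx j, hy j]

theorem L_bdd (n : ℕ) : IsBounded (L n) := by
  refine (isBounded_closedBall (x := 0) (r := √(n * (5 / 4) ^ 2))).subset fun x hx => ?_
  rw [mem_closedBall_zero_iff]
  refine Real.le_sqrt_of_sq_le ?_
  rw [EuclideanSpace.real_norm_sq_eq]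
  calc ∑ i, x i ^ 2 ≤ ∑ _i : Fin n, (5 / 4 : ℝ) ^ 2 := Finset.sum_le_sum fun i _ => by
        have a1 := hx (i, true)
        have a2 := hx (i, false)
        rw [uu_inner] at a1 a2
        simp only [cond_true, cond_false] at a1 a2
        nlinarith
    _ = _ := by simp

theorem L_int (n : ℕ) (x : EuclideanSpace ℝ (Fin n)) (h : ∀ j, ⟪uu n j, x⟫ < 5 / 4) :
    x ∈ interior (L n) := by
  have ho : IsOpen (⋂ j, {x : EuclideanSpace ℝ (Fin n) | ⟪uu n j, x⟫ < 5 / 4}) :=
    isOpen_iInter_of_finite fun j => isOpen_lt (by fun_prop) continuous_const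
  refine interior_maximal (fun y hy j => (Set.mem_iInter.1 hy j).le) ho (Set.mem_iInter.2 h)

theorem ball_int (n : ℕ) (x : EuclideanSpace ℝ (Fin n)) (h : ‖x‖ ≤ 1) : x ∈ interior (L n) := by
  refine L_int n x fun j => ?_
  have := real_inner_le_norm (uu n j) x
  rw [uu_norm] at this
  linarith

theorem L_fr (n : ℕ) (p : EuclideanSpace ℝ (Fin n)) (hp : p ∈ frontier (L n)) :
    ∃ j, ⟪uu n j, p⟫ = 5 / 4 := by
  by_contra h
  push Not at h
  have h1 : p ∈ L n := (L_closed n).frontier_subset hp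
  exact hp.2 (L_int n p fun j => lt_of_le_of_ne (h1 j) (h j))

theorem comp_bdd (n : ℕ) (x : EuclideanSpace ℝ (Fin n)) (hx : x ∈ interior (L n)) :
    IsBounded (connectedComponentIn (frontier (L n))ᶜ x) := by
  refine ((L_bdd n).subset interior_subset).subset ?_
  have hx' : x ∈ (frontier (L n))ᶜ := fun h => h.2 hx
  refine isPreconnected_connectedComponentIn.subset_left_of_subset_union (v := interior (L n)ᶜ)
    isOpen_interior isOpen_interior ?_ ?_ ⟨x, mem_connectedComponentIn hx', hx⟩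
  · exact disjoint_compl_right.mono interior_subset interior_subset
  · rw [← compl_frontier_eq_union_interior]
    exact connectedComponentIn_subset _ _

theorem concrete (n : ℕ) (a b : Fin n) (hab : a ≠ b) :
    ∃ w : EuclideanSpace ℝ (Fin n), closedBall 0 (4 / 5) ⊆ K (uu n) w ∧
      ¬ ∃ (c : EuclideanSpace ℝ (Fin n)) (T : EuclideanSpace ℝ (Fin n) ≃ₗ[ℝ] _),
        K (uu n) w = (fun x => c + T x) '' closedBall 0 1 := by
  let v : ℝ → ℝ → EuclideanSpace ℝ (Fin n) := fun s t =>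
    EuclideanSpace.single a s + EuclideanSpace.single b t
  have hin : ∀ s t s' t', ⟪v s t, v s' t'⟫ = s * s' + t * t' := by
    intro s t s' t'
    simp [v, inner_add_left, EuclideanSpace.inner_single_left, hab, hab.symm]
  have hco : ∀ s t i M, |s| ≤ M → |t| ≤ M → |v s t i| ≤ M := by
    intro s t i M hs ht
    by_cases h1 : i = a
    · simpa [v, h1, hab] using hs
    · by_cases h2 : i = b
      · simpa [v, h2, hab.symm] using ht
      · simpa [v, h1, h2] using (abs_nonneg s).trans hs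
  have hw : ‖v 1 1‖ ^ 2 = 2 := by rw [← real_inner_self_eq_norm_sq, hin]; norm_num
  have huw : ∀ j, ⟪v 1 1, uu n j⟫ ≤ 1 := fun j => by
    rw [real_inner_comm]
    exact (uu_le n j _).trans (hco _ _ _ _ (by simp) (by simp))
  have G := fun x : EuclideanSpace ℝ (Fin n) =>
    good_of (uu n) (v 1 1) (uu_norm n) (uu_uu n) hw huw (v := (x, 1))
  have pt : ∀ s t : ℝ, s * s + t * t = 1 → s + t = 7 / 5 → |s| ≤ 4 / 5 → |t| ≤ 4 / 5 →
      v s t ∈ K (uu n) (v 1 1) := by
    intro s t h1 h2 h3 h4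
    refine G _ ?_ ?_ fun j => ?_
    · refine le_of_pow_le_pow_left₀ two_ne_zero (by norm_num) ?_
      rw [← real_inner_self_eq_norm_sq, hin]; simp [h1]
    · rw [hin]; linarith
    · exact (uu_le n j _).trans ((hco _ _ _ _ h3 h4).trans (by norm_num))
  refine ⟨v 1 1, fun x hx => ?_, not_ell (uu n) (v 1 1) hw (v (4 / 5) (3 / 5)) (v (3 / 5) (4 / 5))
    (pt _ _ (by norm_num) (by norm_num) (by norm_num [abs_of_pos]) (by norm_num [abs_of_pos]))
    (pt _ _ (by norm_num) (by norm_num) (by norm_num [abs_of_pos]) (by norm_num [abs_of_pos]))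
    (fun e => ?_) (by rw [hin]; norm_num) (by rw [hin]; norm_num)⟩
  · rw [mem_closedBall_zero_iff] at hx
    refine G _ (by simp only; linarith) ?_ fun j => ?_
    · have a1 := real_inner_le_norm (v 1 1) x
      have a2 : ‖v 1 1‖ ≤ 3 / 2 := le_of_pow_le_pow_left₀ two_ne_zero (by norm_num) (by linarith)
      have a3 := mul_le_mul a2 hx (norm_nonneg _) (by norm_num)
      simp only
      linarith
    · have a1 := real_inner_le_norm (uu n j) x
      rw [uu_norm] at a1
      simp only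
      linarith
  · have := congrArg (fun y => ⟪v 1 0, y⟫) e
    simp only [hin] at this
    norm_num at this

end Pool.Agent.H.MP_3d3a24_gt
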